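import Pool.Agent.H26.NO.Targets

/-!
# Row CH: Chebyshev's inequality
-/

set_option autoImplicit false

namespace Pool.Agent.H6.NOK

open Finset Pool.Agent.H26.NO

theorem pf_CH (hSM : T_SM) : T_CH := by
  intro ι I q e u v huv hq
  have h := hSM ι I q e u v huv hq
  set μ : ℝ := ∑ i ∈ I, (1 : ℝ) / q i with hμ
  have hμ0 : 0 ≤ μ := sum_nonneg (fun i _ => by positivity)
  set K := (Ioc u v).filter (fun k => (Rk I q e k : ℝ) < μ / 2) with hK
  have h1 : (K.card : ℝ) * (μ ^ 2 / 4) ≤ ∑ k ∈ K, ((Rk I q e k : ℝ) - μ) ^ 2 := by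
    rw [← nsmul_eq_mul]
    apply card_nsmul_le_sum
    intro k hk
    rw [hK, mem_filter] at hk
    have h0 : (0 : ℝ) ≤ Rk I q e k := Nat.cast_nonneg _
    nlinarith [hk.2]
  have h2 : ∑ k ∈ K, ((Rk I q e k : ℝ) - μ) ^ 2 ≤
      ∑ k ∈ Ioc u v, ((Rk I q e k : ℝ) - μ) ^ 2 :=
    sum_le_sum_of_subset_of_nonneg (filter_subset _ _) (fun i _ _ => sq_nonneg _)
  linarith

end Pool.Agent.H6.NOK
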