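import Pool.Agent.H26.NO.Targets

/-!
# Row DZ: two tuples with the same product and the same sum
-/

set_option autoImplicit false

namespace Pool.Agent.H6.NOK

open Finset Pool.Agent.H26.NO

private lemma card_cong (Y d : ℕ) (S : Finset ℕ) (hS : S ⊆ Ioc Y (2 * Y))
    (h : ∀ b ∈ S, ∀ b' ∈ S, b ≡ b' [MOD d]) : S.card ≤ (Y - 1) / d + 1 := by
  have h0 : S.card ≤ (range ((Y - 1) / d + 1)).card := by
    apply card_le_card_of_injOn (fun b => (b - (Y + 1)) / d)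
    · intro b hb
      have hb1 := mem_Ioc.1 (hS hb)
      simp only [coe_range, Set.mem_Iio]
      exact Nat.lt_succ_of_le (Nat.div_le_div_right (by omega))
    · intro b hb b' hb' heq
      have hb1 := mem_Ioc.1 (hS hb)
      have hb2 := mem_Ioc.1 (hS hb')
      have heq' : (b - (Y + 1)) / d = (b' - (Y + 1)) / d := heq
      have h1 : (b - (Y + 1)) + (Y + 1) ≡ (b' - (Y + 1)) + (Y + 1) [MOD d] := by
        rw [Nat.sub_add_cancel (by omega), Nat.sub_add_cancel (by omega)]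
        exact h b hb b' hb'
      have h2 : (b - (Y + 1)) ≡ (b' - (Y + 1)) [MOD d] := Nat.ModEq.add_right_cancel' _ h1
      have h3 : (b - (Y + 1)) % d = (b' - (Y + 1)) % d := h2
      have h4 : b - (Y + 1) = b' - (Y + 1) := by
        rw [← Nat.div_add_mod (b - (Y + 1)) d, ← Nat.div_add_mod (b' - (Y + 1)) d, h3, heq']
      omega
  simpa using h0

private lemma cop {Q b G : ℕ} (hb : 1 ≤ b * Q) (hG : G ∣ b * Q - 1) : Nat.Coprime G Q := by
  rw [Nat.coprime_iff_gcd_eq_one]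
  have h1 : G.gcd Q ∣ b * Q - 1 := (Nat.gcd_dvd_left _ _).trans hG
  have h2 : G.gcd Q ∣ b * Q := (Nat.gcd_dvd_right _ _).mul_left b
  have h3 : G.gcd Q ∣ 1 := by
    have h4 := Nat.dvd_sub h2 h1
    rwa [Nat.sub_sub_self hb] at h4
  exact Nat.dvd_one.1 h3

private lemma cong {Q b b' G : ℕ} (hb : 1 ≤ b * Q) (hb' : 1 ≤ b' * Q) (hG : G ∣ b * Q - 1)
    (hG' : G ∣ b' * Q - 1) : b ≡ b' [MOD G] := by
  have h1 : b * Q - 1 ≡ b' * Q - 1 [MOD G] :=
    (Nat.modEq_zero_iff_dvd.2 hG).trans (Nat.modEq_zero_iff_dvd.2 hG').symm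
  have h2 := h1.add_right 1
  rw [Nat.sub_add_cancel hb, Nat.sub_add_cancel hb'] at h2
  exact Nat.ModEq.cancel_right_of_coprime (cop hb hG) h2

private lemma harm (Y : ℕ) : ∑ d ∈ Icc 1 Y, (1 : ℝ) / d ≤ 1 + Real.log Y := by
  have h := harmonic_le_one_add_log Y
  rw [harmonic_eq_sum_Icc] at h
  push_cast at h
  simpa [one_div] using h

theorem pf_DZ : T_DZ := by
  classical
  intro Y Q z hY hQ
  set B := Bs Y z Q with hB
  have hBI : B ⊆ Ioc Y (2 * Y) := by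
    rw [hB]
    unfold Bs
    exact filter_subset _ _
  have hbQ : ∀ b ∈ B, 1 ≤ b * Q := by
    intro b hb
    have := (mem_Ioc.1 (hBI hb)).1
    exact Nat.mul_pos (by omega) hQ
  have hq : ∀ b ∈ B, Y * Q ≤ b * Q - 1 := by
    intro b hb
    have h1 := (mem_Ioc.1 (hBI hb)).1
    have h2 : (Y + 1) * Q ≤ b * Q := Nat.mul_le_mul_right _ h1
    have h3 : (Y + 1) * Q = Y * Q + Q := by ring
    omega
  have hYQ : 1 ≤ Y * Q := Nat.mul_pos hY hQ
  -- the sum over the pairs of different elements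
  have hG : ∀ b ∈ B, ∀ b' ∈ B.erase b, (b * Q - 1).gcd (b' * Q - 1) ≤
      ∑ d ∈ (Icc 1 Y).filter (fun d => d ∣ b * Q - 1), if b ≡ b' [MOD d] then d else 0 := by
    intro b hb b' hb'
    have hb'B := mem_of_mem_erase hb'
    have hne := ne_of_mem_erase hb'
    set G := (b * Q - 1).gcd (b' * Q - 1) with hGdef
    have hc : b ≡ b' [MOD G] := cong (hbQ b hb) (hbQ b' hb'B) (Nat.gcd_dvd_left _ _)
      (Nat.gcd_dvd_right _ _)
    have hGpos : 1 ≤ G := Nat.gcd_pos_of_pos_left _ (by have := hq b hb; omega)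
    have hGY : G ≤ Y := by
      have h1 := mem_Ioc.1 (hBI hb)
      have h2 := mem_Ioc.1 (hBI hb'B)
      rcases Nat.lt_or_gt_of_ne hne with hlt | hlt
      · have h3 : G ∣ b - b' := (Nat.modEq_iff_dvd' hlt.le).1 hc.symm
        have h4 := Nat.le_of_dvd (by omega) h3
        omega
      · have h3 : G ∣ b' - b := (Nat.modEq_iff_dvd' hlt.le).1 hc
        have h4 := Nat.le_of_dvd (by omega) h3
        omega
    have hmem : G ∈ (Icc 1 Y).filter (fun d => d ∣ b * Q - 1) := by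
      rw [mem_filter, mem_Icc]
      exact ⟨⟨hGpos, hGY⟩, Nat.gcd_dvd_left _ _⟩
    have h5 := single_le_sum (f := fun d => if b ≡ b' [MOD d] then d else 0)
      (fun i _ => Nat.zero_le _) hmem
    simpa [hc] using h5
  have hsum1 : ∀ b ∈ B, ∑ b' ∈ B.erase b, (b * Q - 1).gcd (b' * Q - 1) ≤
      ((Icc 1 Y).filter (fun d => d ∣ b * Q - 1)).card * Y := by
    intro b hb
    refine (sum_le_sum (hG b hb)).trans ?_
    rw [sum_comm]
    rw [← smul_eq_mul]
    apply sum_le_card_nsmul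
    intro d hd
    rw [mem_filter, mem_Icc] at hd
    rw [← sum_filter, sum_const, smul_eq_mul]
    have h1 : ((B.erase b).filter (fun b' => b ≡ b' [MOD d])).card ≤ (Y - 1) / d := by
      have h2 := card_cong Y d (B.filter (fun b' => b ≡ b' [MOD d]))
        ((filter_subset _ _).trans hBI) (by
          intro x hx y hy
          rw [mem_filter] at hx hy
          exact hx.2.symm.trans hy.2)
      have h3 : (B.erase b).filter (fun b' => b ≡ b' [MOD d]) =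
          (B.filter (fun b' => b ≡ b' [MOD d])).erase b := by
        ext x
        simp only [mem_filter, mem_erase]
        tauto
      rw [h3, card_erase_of_mem (by rw [mem_filter]; exact ⟨hb, Nat.ModEq.refl b⟩)]
      exact Nat.sub_le_iff_le_add.2 h2
    calc ((B.erase b).filter (fun b' => b ≡ b' [MOD d])).card * d ≤ (Y - 1) / d * d :=
          Nat.mul_le_mul_right _ h1
      _ ≤ Y - 1 := Nat.div_mul_le_self _ _
      _ ≤ Y := Nat.sub_le _ _
  have hsum2 : ∑ b ∈ B, ∑ b' ∈ B.erase b, (b * Q - 1).gcd (b' * Q - 1) ≤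
      (∑ d ∈ Icc 1 Y, ((Y - 1) / d + 1)) * Y := by
    refine (sum_le_sum hsum1).trans ?_
    rw [← sum_mul]
    apply Nat.mul_le_mul_right
    have h1 : ∀ b ∈ B, ((Icc 1 Y).filter (fun d => d ∣ b * Q - 1)).card =
        ∑ d ∈ Icc 1 Y, if d ∣ b * Q - 1 then 1 else 0 := by
      intro b _
      rw [card_filter]
    rw [sum_congr rfl h1, sum_comm]
    apply sum_le_sum
    intro d hd
    rw [← card_filter]
    apply card_cong Y d _ ((filter_subset _ _).trans hBI)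
    intro x hx y hy
    rw [mem_filter] at hx hy
    exact cong (hbQ x hx.1) (hbQ y hy.1) hx.2 hy.2
  have hY' : (1 : ℝ) ≤ Y := by exact_mod_cast hY
  have hQ' : (1 : ℝ) ≤ Q := by exact_mod_cast hQ
  have hlog : 0 ≤ Real.log Y := Real.log_nonneg hY'
  have hsum3 : ((∑ b ∈ B, ∑ b' ∈ B.erase b, (b * Q - 1).gcd (b' * Q - 1) : ℕ) : ℝ) ≤
      2 * (Y : ℝ) ^ 2 * (1 + Real.log Y) := by
    have h1 : ((∑ b ∈ B, ∑ b' ∈ B.erase b, (b * Q - 1).gcd (b' * Q - 1) : ℕ) : ℝ) ≤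
        (((∑ d ∈ Icc 1 Y, ((Y - 1) / d + 1)) * Y : ℕ) : ℝ) := by exact_mod_cast hsum2
    have h2 : ∀ d ∈ Icc 1 Y, ((((Y - 1) / d + 1 : ℕ)) : ℝ) ≤ 2 * Y * (1 / (d : ℝ)) := by
      intro d hd
      rw [mem_Icc] at hd
      have hd1 : (1 : ℝ) ≤ d := by exact_mod_cast hd.1
      have hd2 : (d : ℝ) ≤ Y := by exact_mod_cast hd.2
      have h3 : (((Y - 1) / d : ℕ) : ℝ) ≤ ((Y - 1 : ℕ) : ℝ) / d := Nat.cast_div_le
      have h4 : ((Y - 1 : ℕ) : ℝ) ≤ Y := by exact_mod_cast Nat.sub_le _ _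
      have h5 : ((Y - 1 : ℕ) : ℝ) / d ≤ (Y : ℝ) / d := by gcongr
      have h6 : (1 : ℝ) ≤ (Y : ℝ) / d := by rwa [one_le_div (by linarith)]
      push_cast
      have h7 : 2 * (Y : ℝ) * (1 / (d : ℝ)) = (Y : ℝ) / d + (Y : ℝ) / d := by ring
      rw [h7]
      linarith
    calc _ ≤ (((∑ d ∈ Icc 1 Y, ((Y - 1) / d + 1)) * Y : ℕ) : ℝ) := h1
      _ = (∑ d ∈ Icc 1 Y, (((Y - 1) / d + 1 : ℕ) : ℝ)) * Y := by push_cast; rfl
      _ ≤ (∑ d ∈ Icc 1 Y, 2 * (Y : ℝ) * (1 / (d : ℝ))) * Y := by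
          gcongr with d hd
          exact h2 d hd
      _ = 2 * (Y : ℝ) ^ 2 * ∑ d ∈ Icc 1 Y, (1 / (d : ℝ)) := by rw [← mul_sum]; ring
      _ ≤ 2 * (Y : ℝ) ^ 2 * (1 + Real.log Y) := by
          gcongr
          exact harm Y
  have hcardB : (B.card : ℝ) ≤ Y := by
    have h1 := card_le_card hBI
    rw [Nat.card_Ioc] at h1
    have h2 : B.card ≤ Y := by omega
    exact_mod_cast h2
  have hqR : ∀ b ∈ B, (Y : ℝ) * Q ≤ ((b * Q - 1 : ℕ) : ℝ) := by
    intro b hb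
    exact_mod_cast hq b hb
  have hYQR : (0 : ℝ) < (Y : ℝ) * Q := by positivity
  have hrow : ∀ b ∈ B, ∑ b' ∈ B, (((b * Q - 1).gcd (b' * Q - 1) : ℕ) : ℝ) /
        (((b * Q - 1 : ℕ) : ℝ) * ((b' * Q - 1 : ℕ) : ℝ)) ≤
      1 / ((Y : ℝ) * Q) + (1 / ((Y : ℝ) * Q) ^ 2) *
        ((∑ b' ∈ B.erase b, (b * Q - 1).gcd (b' * Q - 1) : ℕ) : ℝ) := by
    intro b hb
    rw [← add_sum_erase _ _ hb]
    apply add_le_add
    · rw [Nat.gcd_self]
      have h1 := hqR b hb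
      have h2 : (0 : ℝ) < ((b * Q - 1 : ℕ) : ℝ) := lt_of_lt_of_le hYQR h1
      rw [div_mul_cancel_left₀ h2.ne', ← one_div]
      exact one_div_le_one_div_of_le hYQR h1
    · push_cast
      rw [mul_sum]
      apply sum_le_sum
      intro b' hb'
      have h1 := hqR b hb
      have h2 := hqR b' (mem_of_mem_erase hb')
      have h3 : ((Y : ℝ) * Q) ^ 2 ≤ ((b * Q - 1 : ℕ) : ℝ) * ((b' * Q - 1 : ℕ) : ℝ) := by
        rw [sq]
        exact mul_le_mul h1 h2 hYQR.le (hYQR.le.trans h1)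
      rw [div_eq_mul_one_div, mul_comm (1 / ((Y : ℝ) * Q) ^ 2)]
      exact mul_le_mul_of_nonneg_left (one_div_le_one_div_of_le (by positivity) h3)
        (Nat.cast_nonneg _)
  refine (sum_le_sum hrow).trans ?_
  rw [sum_add_distrib, sum_const, nsmul_eq_mul, ← mul_sum]
  have h1 : (B.card : ℝ) * (1 / ((Y : ℝ) * Q)) ≤ 1 / Q := by
    calc (B.card : ℝ) * (1 / ((Y : ℝ) * Q)) ≤ (Y : ℝ) * (1 / ((Y : ℝ) * Q)) := by gcongr
      _ = 1 / Q := by field_simp
  have h2 : (1 / ((Y : ℝ) * Q) ^ 2) *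
      ∑ b ∈ B, ((∑ b' ∈ B.erase b, (b * Q - 1).gcd (b' * Q - 1) : ℕ) : ℝ) ≤
        (2 + 2 * Real.log Y) / Q := by
    have h3 : ∑ b ∈ B, ((∑ b' ∈ B.erase b, (b * Q - 1).gcd (b' * Q - 1) : ℕ) : ℝ) ≤
        2 * (Y : ℝ) ^ 2 * (1 + Real.log Y) := by
      have := hsum3
      push_cast at this ⊢
      exact this
    calc _ ≤ (1 / ((Y : ℝ) * Q) ^ 2) * (2 * (Y : ℝ) ^ 2 * (1 + Real.log Y)) := by gcongr
      _ = (2 + 2 * Real.log Y) / Q ^ 2 := by field_simp
      _ ≤ (2 + 2 * Real.log Y) / Q := by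
          apply div_le_div_of_nonneg_left (by linarith) (by linarith)
          nlinarith
  calc _ ≤ 1 / (Q : ℝ) + (2 + 2 * Real.log Y) / Q := add_le_add h1 h2
    _ = (3 + 2 * Real.log Y) / Q := by ring

end Pool.Agent.H6.NOK
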