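import Pool.Agent.H26.NO.Targets

/-!
# Row LA: numbers with few prime factors, lower bound
-/

set_option autoImplicit false

namespace Pool.Agent.H6.NOK

open Finset Pool.Agent.H26.NO

private lemma harm_up (Y : ℕ) : ∑ d ∈ Icc 1 Y, (1 : ℝ) / d ≤ 1 + Real.log Y := by
  have h := harmonic_le_one_add_log Y
  rw [harmonic_eq_sum_Icc] at h
  push_cast at h
  simpa [one_div] using h

private lemma harm_low (Y : ℕ) (hY : 1 ≤ Y) : Real.log Y ≤ ∑ d ∈ Icc 1 Y, (1 : ℝ) / d := by
  have h := log_add_one_le_harmonic Y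
  rw [harmonic_eq_sum_Icc] at h
  push_cast at h
  have h2 : Real.log Y ≤ Real.log (Y + 1) := by
    have hY' : (1 : ℝ) ≤ Y := by exact_mod_cast hY
    exact Real.log_le_log (by linarith) (by linarith)
  refine h2.trans ?_
  simpa [one_div] using h

/-- The multiples of `d`. -/
private lemma mult_sum (M d : ℕ) (hd : 1 ≤ d) :
    ∑ m ∈ (Icc 1 M).filter (fun m => d ∣ m), (1 : ℝ) / m ≤ (1 / d) * (1 + Real.log M) := by
  have hsub : (Icc 1 M).filter (fun m => d ∣ m) ⊆ (Icc 1 M).image (fun k => d * k) := by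
    intro m hm
    rw [mem_filter, mem_Icc] at hm
    obtain ⟨⟨h1, h2⟩, k, rfl⟩ := hm
    rw [mem_image]
    refine ⟨k, ?_, rfl⟩
    rw [mem_Icc]
    have hk : 1 ≤ k := by
      rcases Nat.eq_zero_or_pos k with h | h
      · subst h; omega
      · exact h
    refine ⟨hk, ?_⟩
    nlinarith
  calc ∑ m ∈ (Icc 1 M).filter (fun m => d ∣ m), (1 : ℝ) / m
      ≤ ∑ m ∈ (Icc 1 M).image (fun k => d * k), (1 : ℝ) / m :=
        sum_le_sum_of_subset_of_nonneg hsub (fun _ _ _ => by positivity)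
    _ ≤ ∑ k ∈ Icc 1 M, (1 : ℝ) / ((d * k : ℕ) : ℝ) :=
        sum_image_le_of_nonneg (fun _ _ => by positivity)
    _ = (1 / d) * ∑ k ∈ Icc 1 M, (1 : ℝ) / k := by
        rw [mul_sum]
        apply sum_congr rfl
        intro k _
        push_cast
        rw [div_mul_div_comm, mul_one]
    _ ≤ (1 / d) * (1 + Real.log M) := by
        gcongr
        exact harm_up M

/-- The exponent as a number of powers. -/
private lemma fac_eq (M m p : ℕ) (hp : p.Prime) (h1 : 1 ≤ m) (hm : m ≤ M) :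
    m.factorization p = ((Icc 1 M).filter (fun k => p ^ k ∣ m)).card := by
  have h : (Icc 1 M).filter (fun k => p ^ k ∣ m) = Icc 1 (m.factorization p) := by
    ext k
    rw [mem_filter, mem_Icc, mem_Icc, hp.pow_dvd_iff_le_factorization (by omega)]
    have h2 := Nat.factorization_lt p (n := m) (by omega)
    constructor
    · rintro ⟨⟨a, b⟩, c⟩; exact ⟨a, c⟩
    · rintro ⟨a, b⟩; exact ⟨⟨a, by omega⟩, b⟩
  rw [h, Nat.card_Icc]
  omega

private lemma card_eq (M m : ℕ) (h1 : 1 ≤ m) (hm : m ≤ M) :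
    ArithmeticFunction.cardFactors m =
      ∑ p ∈ PN M, ((Icc 1 M).filter (fun k => p ^ k ∣ m)).card := by
  rw [ArithmeticFunction.cardFactors_eq_sum_factorization, Finsupp.sum]
  have hsub : m.factorization.support ⊆ PN M := by
    intro p hp
    rw [Nat.support_factorization, Nat.mem_primeFactors] at hp
    unfold PN
    rw [mem_filter, mem_Icc]
    exact ⟨⟨hp.1.one_lt.le, (Nat.le_of_dvd (by omega) hp.2.1).trans hm⟩, hp.1⟩
  rw [sum_subset hsub (by
    intro p _ hp
    exact Finsupp.notMem_support_iff.1 hp)]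
  apply sum_congr rfl
  intro p hp
  unfold PN at hp
  rw [mem_filter] at hp
  exact fac_eq M m p hp.2 h1 hm

private lemma geo (p : ℕ) (hp : 2 ≤ p) (M : ℕ) :
    ∑ k ∈ Icc 1 M, (1 : ℝ) / ((p ^ k : ℕ) : ℝ) ≤ 1 / ((p : ℝ) - 1) := by
  have hp' : (2 : ℝ) ≤ p := by exact_mod_cast hp
  have key : ∀ M : ℕ, ∑ k ∈ Icc 1 M, (1 : ℝ) / ((p ^ k : ℕ) : ℝ) =
      (1 / ((p : ℝ) - 1)) * (1 - 1 / (p : ℝ) ^ M) := by
    intro M
    have h1 : (p : ℝ) - 1 ≠ 0 := by linarith
    have h2 : (p : ℝ) ≠ 0 := by linarith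
    induction M with
    | zero => simp
    | succ n ih =>
      rw [Finset.sum_Icc_succ_top (by omega), ih]
      push_cast
      field_simp
      ring
  rw [key]
  have h3 : 0 ≤ 1 / (p : ℝ) ^ M := by positivity
  have h4 : 0 < 1 / ((p : ℝ) - 1) := one_div_pos.2 (by linarith)
  nlinarith

private lemma tele (M : ℕ) : ∑ n ∈ Icc 2 M, (1 : ℝ) / ((n : ℝ) * ((n : ℝ) - 1)) ≤ 1 := by
  have key : ∀ M : ℕ, 1 ≤ M → ∑ n ∈ Icc 2 M, (1 : ℝ) / ((n : ℝ) * ((n : ℝ) - 1)) ≤
      1 - 1 / (M : ℝ) := by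
    intro M hM
    induction M, hM using Nat.le_induction with
    | base => simp
    | succ n hn ih =>
      rw [Finset.sum_Icc_succ_top (by omega)]
      have hn' : (1 : ℝ) ≤ n := by exact_mod_cast hn
      have h1 : (1 : ℝ) / (((n + 1 : ℕ) : ℝ) * (((n + 1 : ℕ) : ℝ) - 1)) =
          1 / (n : ℝ) - 1 / ((n + 1 : ℕ) : ℝ) := by
        push_cast
        have : (n : ℝ) + 1 - 1 = n := by ring
        rw [this]
        field_simp
        ring
      rw [h1]
      linarith
  rcases Nat.eq_zero_or_pos M with h | h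
  · subst h; simp
  · have := key M h
    have h2 : 0 ≤ 1 / (M : ℝ) := by positivity
    linarith

private lemma sum_Omega (M : ℕ) :
    ∑ m ∈ Icc 1 M, (ArithmeticFunction.cardFactors m : ℝ) / m ≤
      (∑ p ∈ PN M, (1 : ℝ) / p + 1) * (1 + Real.log M) := by
  have hlog : 0 ≤ 1 + Real.log (M : ℝ) := by
    have := Real.log_natCast_nonneg M
    linarith
  have h1 : ∀ m ∈ Icc 1 M, (ArithmeticFunction.cardFactors m : ℝ) / m =
      ∑ p ∈ PN M, ∑ k ∈ Icc 1 M, if p ^ k ∣ m then (1 : ℝ) / m else 0 := by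
    intro m hm
    rw [mem_Icc] at hm
    rw [card_eq M m hm.1 hm.2]
    push_cast
    rw [sum_div]
    apply sum_congr rfl
    intro p _
    rw [← sum_filter, sum_const, nsmul_eq_mul]
    ring
  rw [sum_congr rfl h1, sum_comm]
  have h2 : ∀ p ∈ PN M, ∑ m ∈ Icc 1 M, ∑ k ∈ Icc 1 M, (if p ^ k ∣ m then (1 : ℝ) / m else 0) ≤
      (1 / (p : ℝ) + 1 / ((p : ℝ) * ((p : ℝ) - 1))) * (1 + Real.log M) := by
    intro p hp
    unfold PN at hp
    rw [mem_filter] at hp
    have hp2 := hp.2.two_le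
    have hp' : (2 : ℝ) ≤ p := by exact_mod_cast hp2
    rw [sum_comm]
    calc ∑ k ∈ Icc 1 M, ∑ m ∈ Icc 1 M, (if p ^ k ∣ m then (1 : ℝ) / m else 0)
        ≤ ∑ k ∈ Icc 1 M, (1 / ((p ^ k : ℕ) : ℝ)) * (1 + Real.log M) := by
          apply sum_le_sum
          intro k _
          rw [← sum_filter]
          exact mult_sum M (p ^ k) (Nat.one_le_pow _ _ (by omega))
      _ = (∑ k ∈ Icc 1 M, (1 / ((p ^ k : ℕ) : ℝ))) * (1 + Real.log M) := by rw [sum_mul]
      _ ≤ (1 / ((p : ℝ) - 1)) * (1 + Real.log M) :=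
          mul_le_mul_of_nonneg_right (geo p hp2 M) hlog
      _ = (1 / (p : ℝ) + 1 / ((p : ℝ) * ((p : ℝ) - 1))) * (1 + Real.log M) := by
          have h1 : (p : ℝ) - 1 ≠ 0 := by linarith
          have h2 : (p : ℝ) ≠ 0 := by linarith
          congr 1
          field_simp
          ring
  refine (sum_le_sum h2).trans ?_
  rw [← sum_mul, sum_add_distrib]
  apply mul_le_mul_of_nonneg_right _ hlog
  gcongr
  refine le_trans ?_ (tele M)
  apply sum_le_sum_of_subset_of_nonneg
  · intro p hp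
    unfold PN at hp
    rw [mem_filter, mem_Icc] at hp
    rw [mem_Icc]
    exact ⟨hp.2.two_le, hp.1.2⟩
  · intro n hn _
    rw [mem_Icc] at hn
    have : (2 : ℝ) ≤ n := by exact_mod_cast hn.1
    have h2 : (0 : ℝ) < (n : ℝ) * ((n : ℝ) - 1) := by nlinarith
    positivity

theorem pf_LA (hMER : T_MER) : T_LA := by
  obtain ⟨C, hC, hm⟩ := hMER
  refine ⟨C + 1, by linarith, ?_⟩
  intro M w hM hw
  have hM1 := hm M hM
  have hw' : (1 : ℝ) ≤ w := by exact_mod_cast hw
  have hM3 : (3 : ℝ) ≤ M := by exact_mod_cast hM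
  have hlog : 0 ≤ Real.log (M : ℝ) := Real.log_natCast_nonneg M
  have hO := sum_Omega M
  have h1 : ∑ m ∈ MM M w, (1 : ℝ) / m =
      ∑ m ∈ Icc 1 M, (1 : ℝ) / m -
        ∑ m ∈ (Icc 1 M).filter (fun m => ¬ ArithmeticFunction.cardFactors m ≤ w), (1 : ℝ) / m := by
    unfold MM
    rw [← sum_filter_add_sum_filter_not (Icc 1 M)
      (fun m => ArithmeticFunction.cardFactors m ≤ w)]
    ring
  have h2 : ∑ m ∈ (Icc 1 M).filter (fun m => ¬ ArithmeticFunction.cardFactors m ≤ w),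
      (1 : ℝ) / m ≤ (∑ m ∈ Icc 1 M, (ArithmeticFunction.cardFactors m : ℝ) / m) / w := by
    rw [sum_div]
    calc ∑ m ∈ (Icc 1 M).filter (fun m => ¬ ArithmeticFunction.cardFactors m ≤ w), (1 : ℝ) / m
        ≤ ∑ m ∈ (Icc 1 M).filter (fun m => ¬ ArithmeticFunction.cardFactors m ≤ w),
            (ArithmeticFunction.cardFactors m : ℝ) / m / w := by
          apply sum_le_sum
          intro m hm
          rw [mem_filter, mem_Icc] at hm
          have ha : (w : ℝ) ≤ (ArithmeticFunction.cardFactors m : ℝ) := by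
            have : w ≤ ArithmeticFunction.cardFactors m := by omega
            exact_mod_cast this
          have hm1 : (0 : ℝ) < m := by exact_mod_cast hm.1.1
          rw [div_div, div_le_div_iff₀ hm1 (by positivity)]
          nlinarith
      _ ≤ ∑ m ∈ Icc 1 M, (ArithmeticFunction.cardFactors m : ℝ) / m / w :=
          sum_le_sum_of_subset_of_nonneg (filter_subset _ _) (fun _ _ _ => by positivity)
  have h3 : (∑ m ∈ Icc 1 M, (ArithmeticFunction.cardFactors m : ℝ) / m) / w ≤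
      (Real.log M + 1) * (Real.log (Real.log M) + (C + 1)) / w := by
    apply div_le_div_of_nonneg_right _ (by linarith)
    refine hO.trans ?_
    rw [mul_comm]
    have h4 : 1 + Real.log (M : ℝ) = Real.log M + 1 := add_comm _ _
    rw [h4]
    apply mul_le_mul_of_nonneg_left _ (by linarith)
    linarith
  rw [h1]
  have h5 := harm_low M (by omega)
  linarith

end Pool.Agent.H6.NOK
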