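import Pool.Agent.H26.NO.Targets
import Pool.Agent.H56.RB.MER

/-!
# Row MER: Mertens, upper bound
-/

set_option autoImplicit false

namespace Pool.Agent.H6.NOK

open Finset Pool.Agent.H26.NO

theorem pf_MER : T_MER := by
  obtain ⟨c, hc, h⟩ := Pool.Agent.H38.RB.MER
  refine ⟨c, hc, ?_⟩
  intro N hN
  have h1 := h N (by
    have : (3 : ℝ) ≤ N := by exact_mod_cast hN
    linarith)
  rw [Nat.floor_natCast] at h1
  exact h1

end Pool.Agent.H6.NOK
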