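import Pool.Agent.H26.NO.Targets

/-!
# Row MU: the mean value
-/

set_option autoImplicit false

namespace Pool.Agent.H6.NOK

open Finset Pool.Agent.H26.NO

open Classical in
private lemma sum_IX {r : ℕ} (A : Fin r → Finset ℕ) (Y : ℕ) (z : ℝ)
    (f : (Fin r → ℕ) × ℕ → ℝ) :
    ∑ y ∈ IX A Y z, f y = ∑ a ∈ Fintype.piFinset A, ∑ b ∈ Bs Y z (Qf a), f (a, b) := by
  unfold IX
  rw [sum_filter, sum_product]
  apply sum_congr rfl
  intro a _
  have h : Bs Y z (Qf a) = (Ioc Y (2 * Y)).filter (fun b => b ∈ Bs Y z (Qf a)) := by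
    ext b
    rw [mem_filter]
    constructor
    · intro hb
      refine ⟨?_, hb⟩
      unfold Bs at hb
      exact (mem_filter.1 hb).1
    · exact fun hb => hb.2
  conv_rhs => rw [h, sum_filter]

theorem pf_MU (hSV : T_SV) : T_MU := by
  classical
  obtain ⟨c, x₀, hc, h⟩ := hSV
  refine ⟨c / 2, max x₀ 1, by positivity, ?_⟩
  intro x hx r A hr hA
  have hx0 : x₀ ≤ x := (le_max_left _ _).trans hx
  have hx1 : 1 ≤ x := (le_max_right _ _).trans hx
  have hY : 1 ≤ Yn x := by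
    unfold Yn
    rw [Nat.one_le_floor_iff]
    exact Real.one_le_rpow hx1 (by norm_num)
  set Y := Yn x with hYdef
  rw [sum_IX, mq, mul_sum]
  apply sum_le_sum
  intro a ha
  rw [Fintype.mem_piFinset] at ha
  have hQ : 2 ≤ Qf a := by
    unfold Qf
    have h1 : ∀ i, 2 ≤ a i := fun i => hA i _ (ha i)
    have h2 : (2 : ℕ) ^ r ≤ ∏ i, a i := by
      have := Finset.prod_le_prod' (s := (univ : Finset (Fin r))) (f := fun _ => 2) (g := a)
        (fun i _ => h1 i)
      simpa using this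
    have h3 : (2 : ℕ) ^ 1 ≤ 2 ^ r := Nat.pow_le_pow_right (by norm_num) hr
    omega
  have hcard := h x hx0 (Qf a) (by omega)
  have hY' : (1 : ℝ) ≤ Y := by exact_mod_cast hY
  have hQ' : (2 : ℝ) ≤ (Qf a : ℝ) := by exact_mod_cast hQ
  have hpt : ∀ b ∈ Bs Y (Real.exp (sx x)) (Qf a),
      1 / (2 * (Y : ℝ) * Qf a) ≤ (1 : ℝ) / qb (a, b) := by
    intro b hb
    unfold Bs at hb
    have hb1 := (mem_filter.1 hb).1
    rw [mem_Ioc] at hb1
    have h1 : 1 ≤ qb (a, b) := by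
      show 1 ≤ b * Qf a - 1
      have : 2 ≤ b * Qf a := by nlinarith [hb1.1]
      omega
    have h2 : qb (a, b) ≤ 2 * Y * Qf a := by
      show b * Qf a - 1 ≤ 2 * Y * Qf a
      have : b * Qf a ≤ 2 * Y * Qf a := Nat.mul_le_mul_right _ hb1.2
      omega
    have h1' : (1 : ℝ) ≤ qb (a, b) := by exact_mod_cast h1
    have h2' : (qb (a, b) : ℝ) ≤ 2 * Y * Qf a := by exact_mod_cast h2
    exact one_div_le_one_div_of_le (by linarith) h2'
  have hsum := card_nsmul_le_sum _ _ _ hpt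
  rw [nsmul_eq_mul] at hsum
  refine le_trans ?_ hsum
  have hpos : 0 ≤ 1 / (2 * (Y : ℝ) * Qf a) := by positivity
  refine le_trans (le_of_eq ?_) (mul_le_mul_of_nonneg_right hcard hpos)
  have hY0 : (Y : ℝ) ≠ 0 := by linarith
  have hQ0 : (Qf a : ℝ) ≠ 0 := by linarith
  by_cases hs : sx x = 0
  · rw [hs]; simp
  · rw [← hYdef]
    field_simp

end Pool.Agent.H6.NOK
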