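import Pool.Agent.H26.NO.Targets

/-!
# Row PD: the sets `PA L M` are disjoint
-/

set_option autoImplicit false

namespace Pool.Agent.H6.NOK

open Finset Pool.Agent.H26.NO

theorem pf_PD : T_PD := by
  intro L L' M hL hL' hLM _ hdis
  rw [disjoint_left]
  intro a ha ha'
  rw [PA, mem_image] at ha ha'
  obtain ⟨⟨p, m⟩, hpm, rfl⟩ := ha
  obtain ⟨⟨p1, m1⟩, hpm1, heq⟩ := ha'
  rw [mem_product] at hpm hpm1
  have heq' : p1 * m1 = p * m := heq
  have hp := hL p hpm.1
  have hp1 := hL' p1 hpm1.1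
  have hd : p ∣ p1 * m1 := by rw [heq']; exact dvd_mul_right _ _
  rcases (Nat.Prime.dvd_mul hp).1 hd with h2 | h2
  · have h3 : p = p1 := (Nat.prime_dvd_prime_iff_eq hp hp1).1 h2
    subst h3
    exact (disjoint_left.1 hdis) hpm.1 hpm1.1
  · have h3 := hLM p hpm.1 m1 hpm1.2
    have h4 := Nat.le_of_dvd (by omega) h2
    omega

end Pool.Agent.H6.NOK
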