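import Pool.Agent.H26.NO.Targets

/-!
# Row PS: the sum of the reciprocals over `PA L M`
-/

set_option autoImplicit false

namespace Pool.Agent.H6.NOK

open Finset Pool.Agent.H26.NO

theorem pf_PS : T_PS := by
  intro L M hL hLM
  constructor
  · intro a ha
    rw [PA, mem_image] at ha
    obtain ⟨⟨p, m⟩, hpm, rfl⟩ := ha
    rw [mem_product] at hpm
    have h1 := (hL p hpm.1).two_le
    have h2 := (hLM p hpm.1 m hpm.2).1
    show 2 ≤ p * m
    nlinarith
  · have hinj : Set.InjOn (fun y : ℕ × ℕ => y.1 * y.2) ((L ×ˢ M : Finset (ℕ × ℕ)) : Set (ℕ × ℕ)) := by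
      rintro ⟨p, m⟩ h ⟨p1, m1⟩ h1 heq
      rw [mem_coe, mem_product] at h h1
      have heq' : p * m = p1 * m1 := heq
      have hp := hL p h.1
      have hp1 := hL p1 h1.1
      have hd : p ∣ p1 * m1 := by rw [← heq']; exact dvd_mul_right _ _
      rcases (Nat.Prime.dvd_mul hp).1 hd with h2 | h2
      · have h3 : p = p1 := (Nat.prime_dvd_prime_iff_eq hp hp1).1 h2
        subst h3
        have h4 : m = m1 := Nat.eq_of_mul_eq_mul_left hp.pos heq'
        rw [h4]
      · exfalso
        have h3 := hLM p h.1 m1 h1.2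
        have h4 := Nat.le_of_dvd (by omega) h2
        omega
    rw [PA, sum_image hinj, sum_product, sum_mul_sum]
    apply sum_congr rfl
    intro p _
    apply sum_congr rfl
    intro m _
    push_cast
    rw [div_mul_div_comm, mul_one]

end Pool.Agent.H6.NOK
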