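import Pool.Agent.H26.NO.Targets

/-!
# Row RS: divisors without small prime factors
-/

set_option autoImplicit false

namespace Pool.Agent.H6.NOK

open Finset Pool.Agent.H26.NO

open Classical in
theorem pf_RS : T_RS := by
  intro n z hn hz
  rcases Nat.lt_or_ge n 2 with h2 | h2
  · have hn1 : n = 1 := by omega
    subst hn1
    have h0 : (Nat.divisors 1).filter
        (fun d => 1 < d ∧ ∀ p : ℕ, p.Prime → p ∣ d → z < (p : ℝ)) = ∅ := by
      rw [filter_eq_empty_iff]
      intro d hd
      rw [Nat.divisors_one, mem_singleton] at hd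
      subst hd
      simp
    rw [h0]
    simp
  have hn2 : (2 : ℝ) ≤ n := by exact_mod_cast h2
  have hL : Real.log 2 ≤ Real.log n := Real.log_le_log (by norm_num) hn2
  have hl2 : (0.6931471803 : ℝ) < Real.log 2 := Real.log_two_gt_d9
  have hz2 : 2 ≤ z := by linarith
  set D := n.divisors.filter (fun d => 1 < d ∧ ∀ p : ℕ, p.Prime → p ∣ d → z < (p : ℝ)) with hD
  set P : Finset ℕ := n.primeFactors.filter (fun p : ℕ => z < (p : ℝ)) with hP
  set S : ℝ := ∑ d ∈ D, (1 : ℝ) / d with hS
  set τ : ℝ := ∑ p ∈ P, (1 : ℝ) / p with hτ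
  have hS0 : 0 ≤ S := sum_nonneg (fun d _ => by positivity)
  have hτ0 : 0 ≤ τ := sum_nonneg (fun d _ => by positivity)
  have h1D : (1 : ℕ) ∉ D := by
    rw [hD, mem_filter]
    rintro ⟨-, h, -⟩
    omega
  -- the recursion
  have hrec : S ≤ τ * (1 + S) := by
    have hsub : D ⊆ (P ×ˢ insert 1 D).image (fun y : ℕ × ℕ => y.1 * y.2) := by
      intro d hd
      rw [hD, mem_filter, Nat.mem_divisors] at hd
      obtain ⟨⟨hdn, hn0⟩, hd1, hdr⟩ := hd
      have hp := Nat.minFac_prime (n := d) (by omega)
      obtain ⟨e, he⟩ := Nat.minFac_dvd d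
      have hen : e ∣ n := (Dvd.intro_left _ he.symm).trans hdn
      have he0 : e ≠ 0 := by
        rintro rfl
        rw [mul_zero] at he
        omega
      rw [mem_image]
      refine ⟨(d.minFac, e), ?_, he.symm⟩
      rw [mem_product]
      constructor
      · rw [hP, mem_filter, Nat.mem_primeFactors]
        exact ⟨⟨hp, (Nat.minFac_dvd d).trans hdn, hn0⟩, hdr _ hp (Nat.minFac_dvd d)⟩
      · rw [mem_insert]
        by_cases he1 : e = 1
        · exact Or.inl he1
        · right
          rw [hD, mem_filter, Nat.mem_divisors]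
          refine ⟨⟨hen, hn0⟩, by omega, ?_⟩
          intro q hq hqe
          exact hdr q hq (hqe.trans (Dvd.intro_left _ he.symm))
    calc S ≤ ∑ d ∈ (P ×ˢ insert 1 D).image (fun y : ℕ × ℕ => y.1 * y.2), (1 : ℝ) / d :=
          sum_le_sum_of_subset_of_nonneg hsub (fun _ _ _ => by positivity)
      _ ≤ ∑ y ∈ P ×ˢ insert 1 D, (1 : ℝ) / ((y.1 * y.2 : ℕ) : ℝ) := by
          apply sum_image_le_of_nonneg
          intro y hy
          positivity
      _ = τ * (1 + S) := by
          rw [sum_product, hτ, sum_mul]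
          apply sum_congr rfl
          intro p _
          rw [sum_insert h1D, mul_add, hS, mul_sum]
          congr 1
          · simp
          · apply sum_congr rfl
            intro d _
            push_cast
            rw [div_mul_div_comm, mul_one]
  -- the number of the large primes
  have hω : (P.card : ℝ) * Real.log 2 ≤ Real.log n := by
    have h1 : ∏ p ∈ P, p ≤ n := by
      refine Nat.le_of_dvd (by omega) ((prod_dvd_prod_of_subset _ _ _ (filter_subset _ _)).trans
        (Nat.prod_primeFactors_dvd n))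
    have h3 : 2 ^ P.card ≤ ∏ p ∈ P, p := by
      rw [← prod_const]
      apply Finset.prod_le_prod'
      intro p hp
      rw [hP, mem_filter, Nat.mem_primeFactors] at hp
      exact hp.1.1.two_le
    have h4 : (2 : ℝ) ^ P.card ≤ n := by exact_mod_cast h3.trans h1
    rw [← Real.log_pow]
    exact Real.log_le_log (by positivity) h4
  have hτz : τ * z ≤ P.card := by
    rw [hτ, sum_mul]
    have h1 : ∀ p ∈ P, (1 : ℝ) / p * z ≤ 1 := by
      intro p hp
      rw [hP, mem_filter, Nat.mem_primeFactors] at hp
      have h3 : (0 : ℝ) < p := by exact_mod_cast hp.1.1.pos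
      rw [one_div, inv_mul_le_iff₀ h3, mul_one]
      exact hp.2.le
    have h3 := sum_le_card_nsmul _ _ _ h1
    simpa using h3
  -- conclusion
  set L := Real.log n with hLdef
  have hz0 : 0 < z := by linarith
  rw [le_div_iff₀ hz0]
  have e1 : τ * z * Real.log 2 ≤ L := (mul_le_mul_of_nonneg_right hτz (by linarith)).trans hω
  have e2 : τ * z * 0.6931 ≤ L := by
    have : 0 ≤ τ * z := by positivity
    nlinarith
  have e3 : τ * 0.6931 * 3 ≤ 1 := by
    have : τ * 0.6931 * 3 * z ≤ 1 * z := by nlinarith
    exact le_of_mul_le_mul_right this hz0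
  have e4 : τ ≤ 0.481 := by linarith
  have e5 : S * z * (1 - τ) ≤ τ * z := by nlinarith
  have e6 : S * z * 0.519 ≤ τ * z := by
    have : 0 ≤ S * z := by positivity
    nlinarith
  nlinarith

end Pool.Agent.H6.NOK
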