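import Pool.Agent.H26.NO.Targets
import Pool.Agent.H73.NK.FM

/-!
# Row TF: the number of ordered factorisations
-/

set_option autoImplicit false

namespace Pool.Agent.H6.NOK

open Finset Pool.Agent.H26.NO Pool.Agent.H73.NK

theorem pf_TF : T_TF := by
  intro s n
  induction n using Nat.strong_induction_on with
  | _ n ih =>
    intro hn
    rcases Nat.lt_or_ge n 2 with h | h
    · have hn1 : n = 1 := by omega
      subst hn1
      simpa using fm_one s
    · obtain ⟨p, hp, a, ha⟩ : ∃ p : ℕ, p.Prime ∧ p ∣ n :=
        ⟨n.minFac, Nat.minFac_prime (by omega), Nat.minFac_dvd n⟩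
      have ha1 : 1 ≤ a := by
        rcases Nat.eq_zero_or_pos a with h0 | h0
        · rw [h0, mul_zero] at ha
          omega
        · exact h0
      have hlt : a < n := by
        have := hp.two_le
        rw [ha]
        nlinarith
      have h1 := fm_mul s p a hp ha1
      have h2 := ih a hlt ha1
      have h3 : ArithmeticFunction.cardFactors n = ArithmeticFunction.cardFactors a + 1 := by
        rw [ha, ArithmeticFunction.cardFactors_mul hp.ne_zero (by omega),
          ArithmeticFunction.cardFactors_apply_prime hp, add_comm]
      rw [h3, pow_succ, ha]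
      calc (fm s (p * a)).card ≤ s * (fm s a).card := h1
        _ ≤ s * s ^ ArithmeticFunction.cardFactors a := Nat.mul_le_mul_left _ h2
        _ = s ^ ArithmeticFunction.cardFactors a * s := mul_comm _ _

end Pool.Agent.H6.NOK
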