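import Pool.Agent.H26.NO.Targets

/-!
# Row TL: a tail of the zeta function
-/

set_option autoImplicit false

namespace Pool.Agent.H6.NOK

open Finset Pool.Agent.H26.NO

private lemma step (N : ℕ) (h : ℝ) (hN : 1 ≤ N) (hh : 0 < h) :
    ((N + 1 : ℕ) : ℝ) ^ (-(1 + h)) ≤
      ((N : ℝ) ^ (-h) - ((N + 1 : ℕ) : ℝ) ^ (-h)) / h := by
  have hN' : (1 : ℝ) ≤ N := by exact_mod_cast hN
  push_cast
  set x : ℝ := (N : ℝ) with hx
  have hx0 : 0 < x := by linarith
  have hx1 : 0 < x + 1 := by linarith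
  rw [le_div_iff₀ hh]
  have e1 : (x + 1) ^ (-(1 + h)) = (x + 1) ^ (-h) * (x + 1)⁻¹ := by
    rw [show -(1 + h) = -h + (-1) by ring, Real.rpow_add hx1, Real.rpow_neg_one]
  have e2 : x ^ (-h) = (x + 1) ^ (-h) * ((x + 1) / x) ^ h := by
    rw [Real.div_rpow hx1.le hx0.le, Real.rpow_neg hx0.le, Real.rpow_neg hx1.le]
    have : (x + 1) ^ h ≠ 0 := (Real.rpow_pos_of_pos hx1 h).ne'
    field_simp
  have e3 : 1 + h * (x + 1)⁻¹ ≤ ((x + 1) / x) ^ h := by
    rw [Real.rpow_def_of_pos (by positivity)]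
    have h1 : (x + 1)⁻¹ ≤ Real.log ((x + 1) / x) := by
      have h2 := Real.one_sub_inv_le_log_of_pos (show 0 < (x + 1) / x by positivity)
      have h3 : 1 - ((x + 1) / x)⁻¹ = (x + 1)⁻¹ := by
        field_simp
        ring
      linarith
    have h4 := Real.add_one_le_exp (Real.log ((x + 1) / x) * h)
    nlinarith
  have hp : 0 < (x + 1) ^ (-h) := Real.rpow_pos_of_pos hx1 _
  rw [e1, e2]
  nlinarith [mul_le_mul_of_nonneg_left e3 hp.le]

theorem pf_TL : T_TL := by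
  intro B N h hB hh
  have hB' : (0 : ℝ) ≤ (B : ℝ) := Nat.cast_nonneg _
  rcases le_or_gt B N with hBN | hBN
  · have key : ∑ a ∈ Ioc B N, (a : ℝ) ^ (-(1 + h)) ≤ ((B : ℝ) ^ (-h) - (N : ℝ) ^ (-h)) / h := by
      induction N, hBN using Nat.le_induction with
      | base => simp
      | succ n hn ih =>
        rw [Finset.sum_Ioc_succ_top hn]
        have h1 := step n h (hB.trans hn) hh
        have h2 : ((B : ℝ) ^ (-h) - ((n + 1 : ℕ) : ℝ) ^ (-h)) / h =
          ((B : ℝ) ^ (-h) - (n : ℝ) ^ (-h)) / h +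
            ((n : ℝ) ^ (-h) - ((n + 1 : ℕ) : ℝ) ^ (-h)) / h := by ring
        rw [h2]
        exact add_le_add ih h1
    refine key.trans ?_
    gcongr
    have : 0 ≤ (N : ℝ) ^ (-h) := Real.rpow_nonneg (Nat.cast_nonneg _) _
    linarith
  · rw [Ioc_eq_empty (by omega), sum_empty]
    positivity

end Pool.Agent.H6.NOK
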